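import Pool.Agent.H45.Apo.Cert
import Pool.Agent.H45.Apo.Small
import Pool.Agent.H45.Apo.Draw
import Pool.Agent.H45.Apo.Upper

set_option autoImplicit false

/-!
There are planar graphs with correspondence packing number six.

`Net d` is the planar 3-tree obtained from a triangle by `d` rounds of putting a new vertex into
every bounded face. `CorrPackable G k` says that every `k`-fold cover of `G` has a packing, and
`mCorrPackingNumber G` is the least `k ≥ 1` with this property.
-/

namespace Pool.Agent.Results.MP_fe1b94_co.PlanarSix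

open Pool.Agent.TH455 Pool.Agent.H45.Apo
open Pool.Agent.H239R2.Planar (HasStraightLineDrawing)

theorem not_five : ∃ n, ∀ d, n ≤ d → ¬ CorrPackable (Net d) 5 := by
  obtain ⟨g1, g2, h⟩ := win_of window (by decide +kernel) (by decide +kernel)
  exact eventually_not c12 g1 g2 h

/-- For all large `d` the planar graph `Net d` has correspondence packing number exactly `6`; all
the graphs `Net d` have a straight-line drawing and all their six-fold covers have packings.
Hence the maximum of the correspondence packing numbers of planar graphs, if it exists, is at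
least `6`. -/
theorem result :
    (∃ n, ∀ d, n ≤ d → mCorrPackingNumber (Net d) = 6) ∧
    (∀ d, HasStraightLineDrawing (Net d) ∧ CorrPackable (Net d) 6) ∧
    ∃ (V : Type) (_ : Fintype V) (G : SimpleGraph V),
      HasStraightLineDrawing G ∧ mCorrPackingNumber G = 6 := by
  have main : ∃ n, ∀ d, n ≤ d → mCorrPackingNumber (Net d) = 6 := by
    obtain ⟨n1, h1⟩ := not_one
    obtain ⟨n2, h2⟩ := not_two
    obtain ⟨n3, h3⟩ := not_three
    obtain ⟨n4, h4⟩ := not_four
    obtain ⟨n5, h5⟩ := not_five
    refine ⟨n1 + n2 + n3 + n4 + n5, fun d hd => ?_⟩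
    unfold mCorrPackingNumber
    have h6 : 6 ∈ {k | 1 ≤ k ∧ CorrPackable (Net d) k} := ⟨by norm_num, corrPackable_six d⟩
    apply le_antisymm (Nat.sInf_le h6)
    by_contra hlt
    obtain ⟨hk1, hk2⟩ := Nat.sInf_mem ⟨6, h6⟩
    generalize sInf {k | 1 ≤ k ∧ CorrPackable (Net d) k} = k at hlt hk1 hk2
    have hk6 : k < 6 := not_le.mp hlt
    interval_cases k
    · exact h1 d (by omega) hk2
    · exact h2 d (by omega) hk2
    · exact h3 d (by omega) hk2
    · exact h4 d (by omega) hk2
    · exact h5 d (by omega) hk2
  refine ⟨main, fun d => ⟨drawing d, corrPackable_six d⟩, ?_⟩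
  obtain ⟨n, hn⟩ := main
  have hfin : Finite {w : W // level w ≤ n} := by
    have hl : Finite {l : List (Fin 3) // l.length < n} := List.finite_length_lt (Fin 3) n
    refine Finite.of_injective (β := Fin 3 ⊕ {l : List (Fin 3) // l.length < n})
      (fun w => match w with
        | ⟨Sum.inl i, _⟩ => Sum.inl i
        | ⟨Sum.inr l, h⟩ => Sum.inr ⟨l, h⟩) ?_
    rintro ⟨u | u, hu⟩ ⟨v | v, hv⟩ h <;> simp_all
  exact ⟨_, Fintype.ofFinite _, Net n, drawing n, hn n le_rfl⟩

end Pool.Agent.Results.MP_fe1b94_co.PlanarSix
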